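import Pool.Agent.Helper63.XR.StB

/-!
# Project XR, module NRM: `th` is approximately contractive (and common lemmas for MUL)
-/

set_option autoImplicit false

namespace Pool.Agent.Helper43.XR

open Pool.Agent.Helper63.XR Filter Topology

/-- the residue of `a` modulo `M` -/
def rr (M : ℕ) (hM : 0 < M) (a : ℤ) : Fin M :=
  ⟨(a % M).toNat, by
    have h1 := Int.emod_lt_of_pos a (b := (M : ℤ)) (by exact_mod_cast hM)
    have h2 := Int.emod_nonneg a (b := (M : ℤ)) (by exact_mod_cast hM.ne')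
    omega⟩

theorem rr_coe (M : ℕ) (hM : 0 < M) (a : ℤ) : (((rr M hM a : Fin M) : ℕ) : ℤ) = a % M := by
  have h2 := Int.emod_nonneg a (b := (M : ℤ)) (by exact_mod_cast hM.ne')
  simp only [rr]
  exact Int.toNat_of_nonneg h2

theorem dvd_iff_rr (M : ℕ) (hM : 0 < M) (a : ℤ) (i : Fin M) :
    ((M : ℤ) ∣ a - ((i : ℕ) : ℤ)) ↔ i = rr M hM a := by
  rw [← Int.modEq_iff_dvd, Int.ModEq, Fin.ext_iff, ← Int.natCast_inj, rr_coe]
  have hi : (((i : ℕ) : ℤ)) % M = ((i : ℕ) : ℤ) :=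
    Int.emod_eq_of_lt (by positivity) (by exact_mod_cast i.2)
  rw [hi]

theorem colsum_rr (M : ℕ) (hM : 0 < M) (a : ℤ) (u : Fin M → ℝ) :
    ∑ i : Fin M, (if ((M : ℤ) ∣ a - ((i : ℕ) : ℤ)) then u i else 0) = u (rr M hM a) := by
  have : ∀ i : Fin M, (if ((M : ℤ) ∣ a - ((i : ℕ) : ℤ)) then u i else 0)
      = if i = rr M hM a then u i else 0 := fun i => by
    simp only [dvd_iff_rr M hM]
  simp only [this]
  rw [Finset.sum_ite_eq' Finset.univ (rr M hM a) u, if_pos (Finset.mem_univ _)]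

variable {X : Type} [TopologicalSpace X]

theorem ev_rec (h : X ≃ₜ X) (t : X) (F : C(X, ℂ)) (L : ℕ) (δ : ℝ) (hδ : 0 < δ) :
    ∀ᶠ M : ℕ in rec h t, L < M ∧ ∀ p : ℤ, -(L : ℤ) ≤ p → p ≤ L →
      ‖F ((h ^ (p + M) : X ≃ₜ X) t) - F ((h ^ p : X ≃ₜ X) t)‖ ≤ δ := by
  have hat : ∀ᶠ M : ℕ in rec h t, L < M :=
    (eventually_gt_atTop L).filter_mono inf_le_left
  have hten : Tendsto (fun M : ℕ => (h ^ ((M : ℕ) : ℤ) : X ≃ₜ X) t) (rec h t) (𝓝 t) :=
    tendsto_comap.mono_left inf_le_right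
  have hall : ∀ᶠ M : ℕ in rec h t, ∀ p ∈ Finset.Icc (-(L : ℤ)) L,
      ‖F ((h ^ (p + M) : X ≃ₜ X) t) - F ((h ^ p : X ≃ₜ X) t)‖ ≤ δ := by
    rw [eventually_all_finset]
    intro p _
    have hc : Continuous fun x => F ((h ^ p : X ≃ₜ X) x) := F.continuous.comp (h ^ p : X ≃ₜ X).continuous
    have h1 := (hc.tendsto t).comp hten
    have h2 := (Metric.tendsto_nhds.1 h1) δ hδ
    filter_upwards [h2] with M hM
    rw [Function.comp_apply, dist_eq_norm] at hM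
    rw [zpow_add, Homeomorph.mul_apply]
    exact hM.le
  filter_upwards [hat, hall] with M h1 h2
  exact ⟨h1, fun p hp1 hp2 => h2 p (Finset.mem_Icc.2 ⟨hp1, hp2⟩)⟩

theorem key_rr (h : X ≃ₜ X) (t : X) (F : C(X, ℂ)) (L : ℕ) (δ : ℝ) (hδ : 0 < δ) (M : ℕ) (hLM : L < M)
    (H : ∀ p : ℤ, -(L : ℤ) ≤ p → p ≤ L →
      ‖F ((h ^ (p + M) : X ≃ₜ X) t) - F ((h ^ p : X ≃ₜ X) t)‖ ≤ δ) (a : ℤ) (h1 : -(L : ℤ) ≤ a)
    (h2 : a < M + L) :
    ‖F ((h ^ (a % M) : X ≃ₜ X) t) - F ((h ^ a : X ≃ₜ X) t)‖ ≤ δ := by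
  have hM : (0 : ℤ) < M := by exact_mod_cast (by omega : 0 < M)
  have hLM' : (L : ℤ) < M := by exact_mod_cast hLM
  rcases lt_or_ge a 0 with ha | ha
  · have e : a % (M : ℤ) = a + M := by
      rw [← Int.add_emod_right]
      exact Int.emod_eq_of_lt (by linarith) (by linarith)
    rw [e]
    exact H a h1 (by linarith [Int.natCast_nonneg L])
  · rcases lt_or_ge a M with hb | hb
    · rw [Int.emod_eq_of_lt ha hb, sub_self, norm_zero]
      exact hδ.le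
    · have e : a % (M : ℤ) = a - M := by
        rw [← Int.sub_emod_right]
        exact Int.emod_eq_of_lt (by linarith) (by linarith)
      rw [e, norm_sub_rev]
      have h3 := H (a - M) (by linarith [Int.natCast_nonneg L]) (by linarith)
      rw [sub_add_cancel] at h3
      exact h3

theorem hNRM : StNrm := by
  intro X _ _ h t g c ε hε hcs
  set δ : ℝ := ε / (g.support.card + 1) with hδdef
  have hδ : 0 < δ := by positivity
  have hev : ∀ᶠ M : ℕ in rec h t, ∀ n ∈ g.support, n.natAbs < M ∧ ∀ p : ℤ, -(n.natAbs : ℤ) ≤ p →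
      p ≤ n.natAbs → ‖(g n) ((h ^ (p + M) : X ≃ₜ X) t) - (g n) ((h ^ p : X ≃ₜ X) t)‖ ≤ δ := by
    rw [eventually_all_finset]
    intro n _
    exact ev_rec h t (g n) n.natAbs δ hδ
  filter_upwards [hev] with M hM j
  have hM0 : 0 < M := lt_of_le_of_lt (Nat.zero_le _) j.2
  have h1 : ∀ i : Fin M, ‖th h t M g i j‖ ≤ ∑ n ∈ g.support,
      if ((M : ℤ) ∣ (n + ((j : ℕ) : ℤ)) - ((i : ℕ) : ℤ)) then ‖(g n) ((h ^ ((i : ℕ) : ℤ) : X ≃ₜ X) t)‖ else 0 := by
    intro i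
    unfold th Finsupp.sum
    refine le_trans (norm_sum_le _ _) (le_of_eq ?_)
    apply Finset.sum_congr rfl
    intro n _
    dsimp only
    rw [apply_ite norm, norm_zero]
  calc ∑ i : Fin M, ‖th h t M g i j‖
      ≤ ∑ i : Fin M, ∑ n ∈ g.support,
        (if ((M : ℤ) ∣ (n + ((j : ℕ) : ℤ)) - ((i : ℕ) : ℤ)) then ‖(g n) ((h ^ ((i : ℕ) : ℤ) : X ≃ₜ X) t)‖
          else 0) := Finset.sum_le_sum fun i _ => h1 i
    _ = ∑ n ∈ g.support, ‖(g n) ((h ^ ((n + ((j : ℕ) : ℤ)) % M) : X ≃ₜ X) t)‖ := by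
        rw [Finset.sum_comm]
        apply Finset.sum_congr rfl
        intro n _
        rw [colsum_rr M hM0 (n + ((j : ℕ) : ℤ)) fun i => ‖(g n) ((h ^ ((i : ℕ) : ℤ) : X ≃ₜ X) t)‖, rr_coe]
    _ ≤ ∑ n ∈ g.support, (‖(g n) ((h ^ n : X ≃ₜ X) ((h ^ ((j : ℕ) : ℤ) : X ≃ₜ X) t))‖ + δ) := by
        apply Finset.sum_le_sum
        intro n hn
        obtain ⟨h2, h3⟩ := hM n hn
        have hj : ((j : ℕ) : ℤ) < M := by exact_mod_cast j.2
        have hj0 : (0 : ℤ) ≤ ((j : ℕ) : ℤ) := Int.natCast_nonneg _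
        have hn1 : -(n.natAbs : ℤ) ≤ n := by omega
        have hn2 : n ≤ n.natAbs := by omega
        have h4 := key_rr h t (g n) n.natAbs δ hδ M h2 h3 (n + ((j : ℕ) : ℤ)) (by linarith) (by linarith)
        have h5 := norm_sub_norm_le ((g n) ((h ^ ((n + ((j : ℕ) : ℤ)) % M) : X ≃ₜ X) t))
          ((g n) ((h ^ (n + ((j : ℕ) : ℤ)) : X ≃ₜ X) t))
        rw [zpow_add, Homeomorph.mul_apply] at h5 h4
        linarith
    _ ≤ c + ε := by
        rw [Finset.sum_add_distrib, Finset.sum_const, nsmul_eq_mul]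
        have h6 := hcs ((h ^ ((j : ℕ) : ℤ) : X ≃ₜ X) t)
        unfold Finsupp.sum at h6
        have h7 : (g.support.card : ℝ) * δ ≤ ε := by
          rw [hδdef, mul_div_assoc', div_le_iff₀ (by positivity)]
          nlinarith
        linarith

end Pool.Agent.Helper43.XR
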