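import Pool.Agent.Helper43.XR.M_NRM

/-!
# Project XR, module MUL: `th` is approximately multiplicative
-/

set_option autoImplicit false

namespace Pool.Agent.Helper43.XR

open Pool.Agent.Helper63.XR Filter Topology

variable {X : Type} [TopologicalSpace X]

private theorem th_single_MUL (h : X ≃ₜ X) (t : X) (M : ℕ) (n : ℤ) (f : C(X, ℂ)) (i j : Fin M) :
    th h t M (Finsupp.single n f) i j =
      if ((M : ℤ) ∣ n + ((j : ℕ) : ℤ) - ((i : ℕ) : ℤ)) then f ((h ^ ((i : ℕ) : ℤ) : X ≃ₜ X) t) else 0 := by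
  unfold th
  rw [Finsupp.sum_single_index]
  simp

private noncomputable def thH_MUL (h : X ≃ₜ X) (t : X) (M : ℕ) : FS X →+ Matrix (Fin M) (Fin M) ℂ where
  toFun := th h t M
  map_zero' := by
    ext i j
    simp [th]
  map_add' := fun g g' => by
    ext i j
    rw [Matrix.add_apply]
    unfold th
    rw [Finsupp.sum_add_index']
    · intro n
      simp
    · intro n f f'
      split
      · simp
      · simp

private theorem thH_apply_MUL (h : X ≃ₜ X) (t : X) (M : ℕ) (g : FS X) : thH_MUL h t M g = th h t M g := rfl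

private theorem colLe_sum_MUL {κ m n : Type} [Fintype m] (S : Finset κ) (A : κ → Matrix m n ℂ) (a : κ → ℝ)
    (hA : ∀ s ∈ S, ColLe (A s) (a s)) : ColLe (∑ s ∈ S, A s) (∑ s ∈ S, a s) := by
  intro j
  calc ∑ i, ‖(∑ s ∈ S, A s) i j‖ ≤ ∑ i, ∑ s ∈ S, ‖A s i j‖ := by
        apply Finset.sum_le_sum
        intro i _
        rw [Matrix.sum_apply]
        exact norm_sum_le _ _
    _ = ∑ s ∈ S, ∑ i, ‖A s i j‖ := Finset.sum_comm
    _ ≤ ∑ s ∈ S, a s := Finset.sum_le_sum fun s hs => hA s hs j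

private theorem single_MUL [CompactSpace X] (h : X ≃ₜ X) (t : X) (m n : ℤ) (f f' : C(X, ℂ)) (δ : ℝ) (hδ : 0 < δ)
    (M : ℕ) (hLM : m.natAbs < M) (H : ∀ p : ℤ, -(m.natAbs : ℤ) ≤ p → p ≤ m.natAbs →
      ‖f' ((h ^ (p + M) : X ≃ₜ X) t) - f' ((h ^ p : X ≃ₜ X) t)‖ ≤ δ) :
    ColLe (th h t M (Finsupp.single (m + n) (f * cmp h (-m) f')) -
      th h t M (Finsupp.single m f) * th h t M (Finsupp.single n f')) (‖f‖ * δ) := by
  have hM0 : 0 < M := by omega
  intro j
  have h1 : ∀ i : Fin M, ‖(th h t M (Finsupp.single (m + n) (f * cmp h (-m) f')) -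
      th h t M (Finsupp.single m f) * th h t M (Finsupp.single n f')) i j‖ ≤
      if ((M : ℤ) ∣ (m + n + ((j : ℕ) : ℤ)) - ((i : ℕ) : ℤ)) then ‖f‖ * δ else 0 := by
    intro i
    rw [Matrix.sub_apply, Matrix.mul_apply, th_single_MUL]
    have h2 : ∀ l : Fin M, th h t M (Finsupp.single m f) i l * th h t M (Finsupp.single n f') l j =
        if l = rr M hM0 (((i : ℕ) : ℤ) - m) then f ((h ^ ((i : ℕ) : ℤ) : X ≃ₜ X) t) *
          th h t M (Finsupp.single n f') l j else 0 := by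
      intro l
      rw [th_single_MUL h t M m f i l]
      have h3 : ((M : ℤ) ∣ m + ((l : ℕ) : ℤ) - ((i : ℕ) : ℤ)) ↔ l = rr M hM0 (((i : ℕ) : ℤ) - m) := by
        rw [← dvd_iff_rr M hM0]
        have h4 : ((i : ℕ) : ℤ) - m - ((l : ℕ) : ℤ) = -(m + ((l : ℕ) : ℤ) - ((i : ℕ) : ℤ)) := by ring
        rw [h4, dvd_neg]
      simp only [h3, ite_mul, zero_mul]
    simp only [h2]
    rw [Finset.sum_ite_eq' Finset.univ (rr M hM0 (((i : ℕ) : ℤ) - m)), if_pos (Finset.mem_univ _),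
      th_single_MUL, rr_coe]
    have h5 : ((M : ℤ) ∣ n + ((j : ℕ) : ℤ) - (((i : ℕ) : ℤ) - m) % M) ↔
        ((M : ℤ) ∣ (m + n + ((j : ℕ) : ℤ)) - ((i : ℕ) : ℤ)) := by
      have h6 := Int.emod_add_mul_ediv (((i : ℕ) : ℤ) - m) M
      have h7 : n + ((j : ℕ) : ℤ) - (((i : ℕ) : ℤ) - m) % M =
          (m + n + ((j : ℕ) : ℤ)) - ((i : ℕ) : ℤ) + M * ((((i : ℕ) : ℤ) - m) / M) := by linarith
      rw [h7]
      exact (dvd_add_left (Dvd.intro _ rfl))
    simp only [h5]
    by_cases hc : ((M : ℤ) ∣ (m + n + ((j : ℕ) : ℤ)) - ((i : ℕ) : ℤ))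
    · simp only [if_pos hc]
      rw [ContinuousMap.mul_apply, ← mul_sub, norm_mul]
      have hi : ((i : ℕ) : ℤ) < M := by exact_mod_cast i.2
      have hi0 : (0 : ℤ) ≤ ((i : ℕ) : ℤ) := Int.natCast_nonneg _
      have hn1 : -(m.natAbs : ℤ) ≤ m := by omega
      have hn2 : m ≤ m.natAbs := by omega
      have h8 := key_rr h t f' m.natAbs δ hδ M hLM H (((i : ℕ) : ℤ) - m) (by linarith) (by linarith)
      have h9 : (cmp h (-m) f') ((h ^ ((i : ℕ) : ℤ) : X ≃ₜ X) t) = f' ((h ^ (((i : ℕ) : ℤ) - m) : X ≃ₜ X) t) := by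
        change f' ((h ^ (-m) : X ≃ₜ X) ((h ^ ((i : ℕ) : ℤ) : X ≃ₜ X) t)) = _
        rw [← Homeomorph.mul_apply, ← zpow_add]
        congr 2
        ring_nf
      rw [h9, norm_sub_rev]
      exact mul_le_mul (ContinuousMap.norm_coe_le_norm f _) h8 (norm_nonneg _) (norm_nonneg _)
    · simp only [if_neg hc]
      simp
  refine le_trans (Finset.sum_le_sum fun i _ => h1 i) ?_
  rw [colsum_rr M hM0 (m + n + ((j : ℕ) : ℤ)) fun _ => ‖f‖ * δ]

theorem hMUL : StMul := by
  intro X _ _ h t g g' ε hε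
  set C : ℝ := ∑ m ∈ g.support, ∑ _n ∈ g'.support, ‖g m‖ with hC
  have hC0 : 0 ≤ C := Finset.sum_nonneg fun _ _ => Finset.sum_nonneg fun _ _ => norm_nonneg _
  set δ : ℝ := ε / (C + 1) with hδdef
  have hδ : 0 < δ := by positivity
  have hev : ∀ᶠ M : ℕ in rec h t, ∀ m ∈ g.support, ∀ n ∈ g'.support, m.natAbs < M ∧
      ∀ p : ℤ, -(m.natAbs : ℤ) ≤ p → p ≤ m.natAbs →
      ‖(g' n) ((h ^ (p + M) : X ≃ₜ X) t) - (g' n) ((h ^ p : X ≃ₜ X) t)‖ ≤ δ := by
    rw [eventually_all_finset]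
    intro m _
    rw [eventually_all_finset]
    intro n _
    exact ev_rec h t (g' n) m.natAbs δ hδ
  filter_upwards [hev] with M hM
  have e1 : th h t M (tw h g g') = ∑ m ∈ g.support, ∑ n ∈ g'.support,
      th h t M (Finsupp.single (m + n) (g m * cmp h (-m) (g' n))) := by
    rw [← thH_apply_MUL]
    unfold tw Finsupp.sum
    rw [map_sum]
    apply Finset.sum_congr rfl
    intro m _
    rw [map_sum]
    rfl
  have e2 : ∀ g : FS X, th h t M g = ∑ m ∈ g.support, th h t M (Finsupp.single m (g m)) := by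
    intro g
    conv_lhs => rw [← Finsupp.sum_single g, ← thH_apply_MUL]
    unfold Finsupp.sum
    rw [map_sum]
    rfl
  have e3 : th h t M (tw h g g') - th h t M g * th h t M g' = ∑ m ∈ g.support, ∑ n ∈ g'.support,
      (th h t M (Finsupp.single (m + n) (g m * cmp h (-m) (g' n))) -
        th h t M (Finsupp.single m (g m)) * th h t M (Finsupp.single n (g' n))) := by
    rw [e1, e2 g, e2 g', Finset.sum_mul_sum, ← Finset.sum_sub_distrib]
    apply Finset.sum_congr rfl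
    intro m _
    rw [← Finset.sum_sub_distrib]
  rw [e3]
  have h1 := colLe_sum_MUL g.support (fun m => ∑ n ∈ g'.support,
      (th h t M (Finsupp.single (m + n) (g m * cmp h (-m) (g' n))) -
        th h t M (Finsupp.single m (g m)) * th h t M (Finsupp.single n (g' n))))
      (fun m => ∑ _n ∈ g'.support, ‖g m‖ * δ) (fun m hm => by
        apply colLe_sum_MUL
        intro n hn
        obtain ⟨h2, h3⟩ := hM m hm n hn
        exact single_MUL h t m n (g m) (g' n) δ hδ M h2 h3)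
  intro j
  refine le_trans (h1 j) ?_
  have h4 : ∑ m ∈ g.support, ∑ _n ∈ g'.support, ‖g m‖ * δ = C * δ := by
    rw [hC, Finset.sum_mul]
    apply Finset.sum_congr rfl
    intro m _
    rw [Finset.sum_mul]
  rw [h4, hδdef, mul_div_assoc', div_le_iff₀ (by positivity)]
  nlinarith

end Pool.Agent.Helper43.XR
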