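import Pool.Agent.Helper63.XR.StB

/-!
# Project XR, module RA: isometries of L^1 preserve disjointness
-/

set_option autoImplicit false

namespace Pool.Agent.Helper43.XR

open Pool.Agent.Helper63.XR MeasureTheory

private theorem cx_RA (a b : ℂ) (h1 : ‖a + b‖ = ‖a‖ + ‖b‖) (h2 : ‖a - b‖ = ‖a‖ + ‖b‖) : a = 0 ∨ b = 0 := by
  have h := parallelogram_law_with_norm ℝ a b
  rw [h1, h2] at h
  have h3 : ‖a‖ * ‖b‖ = 0 := by nlinarith
  rcases mul_eq_zero.1 h3 with h3 | h3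
  · exact Or.inl (norm_eq_zero.1 h3)
  · exact Or.inr (norm_eq_zero.1 h3)

private theorem sum_RA {Y : Type} [MeasurableSpace Y] (ν : Measure Y) (F G H : Lp ℂ 1 ν)
    (hH : ∀ᵐ y ∂ν, ‖H y‖ ≤ ‖F y‖ + ‖G y‖) (hn : ‖H‖ = ‖F‖ + ‖G‖) :
    ∀ᵐ y ∂ν, ‖H y‖ = ‖F y‖ + ‖G y‖ := by
  rw [L1.norm_eq_integral_norm, L1.norm_eq_integral_norm, L1.norm_eq_integral_norm,
    ← integral_add (L1.integrable_coeFn F).norm (L1.integrable_coeFn G).norm] at hn
  have hi : Integrable (fun y => ‖F y‖ + ‖G y‖) ν :=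
    (L1.integrable_coeFn F).norm.add (L1.integrable_coeFn G).norm
  have h0 : ∫ y, (‖F y‖ + ‖G y‖ - ‖H y‖) ∂ν = 0 := by
    rw [integral_sub hi (L1.integrable_coeFn H).norm, hn, sub_self]
  have h1 : 0 ≤ᵐ[ν] fun y => ‖F y‖ + ‖G y‖ - ‖H y‖ := by
    filter_upwards [hH] with y hy
    exact sub_nonneg.2 hy
  have h2 := (integral_eq_zero_iff_of_nonneg_ae h1 (hi.sub (L1.integrable_coeFn H).norm)).1 h0
  filter_upwards [h2] with y hy
  exact (sub_eq_zero.1 hy).symm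

private theorem dis_RA {Y : Type} [MeasurableSpace Y] (ν : Measure Y) (f g H : Lp ℂ 1 ν)
    (hd : ∀ᵐ y ∂ν, f y = 0 ∨ g y = 0) (hH : ∀ᵐ y ∂ν, H y = f y + g y ∨ H y = f y - g y) :
    ‖H‖ = ‖f‖ + ‖g‖ := by
  rw [L1.norm_eq_integral_norm, L1.norm_eq_integral_norm, L1.norm_eq_integral_norm,
    ← integral_add (L1.integrable_coeFn f).norm (L1.integrable_coeFn g).norm]
  apply integral_congr_ae
  filter_upwards [hd, hH] with y h1 h2
  rcases h1 with h1 | h1 <;> rcases h2 with h2 | h2 <;> rw [h2, h1] <;> simp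

theorem hRA : StRa := by
  intro Y _ ν T hT f g hd
  have hp : ‖T f + T g‖ = ‖T f‖ + ‖T g‖ := by
    rw [← map_add, hT, hT, hT]
    apply dis_RA ν f g _ hd
    filter_upwards [Lp.coeFn_add f g] with y hy
    exact Or.inl hy
  have hm : ‖T f - T g‖ = ‖T f‖ + ‖T g‖ := by
    rw [← map_sub, hT, hT, hT]
    apply dis_RA ν f g _ hd
    filter_upwards [Lp.coeFn_sub f g] with y hy
    exact Or.inr hy
  have h1 := sum_RA ν (T f) (T g) (T f + T g) (by
    filter_upwards [Lp.coeFn_add (T f) (T g)] with y hy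
    rw [hy]
    exact norm_add_le _ _) hp
  have h2 := sum_RA ν (T f) (T g) (T f - T g) (by
    filter_upwards [Lp.coeFn_sub (T f) (T g)] with y hy
    rw [hy]
    exact norm_sub_le _ _) hm
  filter_upwards [h1, h2, Lp.coeFn_add (T f) (T g), Lp.coeFn_sub (T f) (T g)] with y a b c d
  rw [c] at a
  rw [d] at b
  exact cx_RA _ _ a b

end Pool.Agent.Helper43.XR
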